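import Pool.Agent.X163.Ak.Root
import Pool.Agent.X163.Ak.Layers

/-!
# MP_4b405e_nt: almost all layers of an arbitrary family of progressions are large

Let `a : ℝ^n → ℝ^n` be an arbitrary function and consider the layers `{a r + t r : r ∈ [0,1]^n}` for
real `t`; a set `B` as in the problem contains the layers with `t = 0, 1, …, k - 1`.  Let
`c > 1.66958684…`, the root of `7x⁴ - 6x³ - 21x² + 24x - 8`.  For `s < n / c` the set of the real `t`
whose layer has upper Minkowski dimension less than `s` contains no measurable set of positive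
measure, and it has density zero in every long finite progression, uniformly in `a`, in `n` and in
the progression.  There are also versions at a single scale.

Proof.  The parameters of the small layers contain no homothetic copy of a finite pattern, which
depends on `c` only; then Szemerédi's theorem (from the density Hales-Jewett theorem
`Pool.Agent.H602R3.DHJ.dhj`) in the form for sets of positive measure.
-/

set_option autoImplicit false

open MeasureTheory

namespace Pool.Agent.Results.MP_4b405e_nt.AlmostAllLayers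

/-- `ℝ^n` -/
abbrev Sp (n : ℕ) : Type := EuclideanSpace ℝ (Fin n)

/-- the cube `[0,1]^n` -/
def cube (n : ℕ) : Set (Sp n) := {r | ∀ i, r i ∈ Set.Icc (0 : ℝ) 1}

/-- the balls of radius `δ` with centres in the finite set `P` cover `B` -/
def Covers {n : ℕ} (P : Finset (Sp n)) (δ : ℝ) (B : Set (Sp n)) : Prop :=
  B ⊆ ⋃ x ∈ P, Metric.ball x δ

/-- the layer `{a r + t r : r ∈ R}` -/
def layer {n : ℕ} (R : Set (Sp n)) (a : Sp n → Sp n) (t : ℝ) : Set (Sp n) :=
  {y | ∃ r ∈ R, y = a r + t • r}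

/-- `B` is covered by at most `N` balls of radius `δ`. -/
def CoverLE {n : ℕ} (B : Set (Sp n)) (δ : ℝ) (N : ℕ) : Prop :=
  ∃ P : Finset (Sp n), P.card ≤ N ∧ Covers P δ B

/-- For all sufficiently small `δ` the set `B` is covered by at most `δ ^ (-s)` balls of radius `δ`.
Every bounded set of upper Minkowski dimension less than `s` has this property. -/
def SmallDim {n : ℕ} (s : ℝ) (B : Set (Sp n)) : Prop :=
  ∃ δ₀ > 0, ∀ δ : ℝ, 0 < δ → δ < δ₀ → ∃ P : Finset (Sp n), Covers P δ B ∧ (P.card : ℝ) ≤ δ ^ (-s)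

namespace Aux

open Pool.Agent.X163.Ak Pool.Agent.W814.BB Filter Topology

theorem cube_cover {n : ℕ} {ρ : ℝ} (hρ : 0 < ρ) (T : Finset (Sp n)) (hT : Covers T ρ (cube n)) :
    (1 / ρ) ^ n ≤ 2 ^ n * (T.card : ℝ) := by
  classical
  obtain ⟨D, hD⟩ : ∃ D : Finset (Fin n → ℤ), D = Fintype.piFinset fun _ => Finset.Icc 0 ⌊1 / ρ⌋ :=
    ⟨_, rfl⟩
  have hDc : (1 / ρ) ^ n ≤ D.card := by
    rw [hD, Fintype.card_piFinset]
    simp only [Finset.prod_const, Finset.card_univ, Fintype.card_fin, Int.card_Icc]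
    push_cast
    refine pow_le_pow_left₀ (by positivity) ?_ n
    have h0 : 0 ≤ ⌊1 / ρ⌋ := Int.floor_nonneg.2 (by positivity)
    have h2 := Int.lt_floor_add_one (1 / ρ)
    have h3 : ((((⌊1 / ρ⌋ + 1 - 0).toNat : ℕ) : ℤ) : ℝ) = ((⌊1 / ρ⌋ + 1 : ℤ) : ℝ) := by
      rw [Int.toNat_of_nonneg (by omega)]; push_cast; ring
    have h4 : (((⌊1 / ρ⌋ + 1 - 0).toNat : ℕ) : ℝ) = ((⌊1 / ρ⌋ + 1 : ℤ) : ℝ) := by
      rw [← h3]; push_cast; rfl
    rw [h4]
    push_cast
    exact h2.le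
  have hsub : D ⊆ T.biUnion fun x => Fintype.piFinset fun i =>
      Finset.Icc (⌊x i / ρ⌋) (⌊x i / ρ⌋ + 1) := by
    intro d hd
    rw [hD, Fintype.mem_piFinset] at hd
    have hmem : (WithLp.toLp 2 fun i => ρ * (d i : ℝ) : Sp n) ∈ cube n := by
      intro i
      have h1 := Finset.mem_Icc.1 (hd i)
      have h2 : (0:ℝ) ≤ d i := by exact_mod_cast h1.1
      have h3 : (d i : ℝ) ≤ 1 / ρ := (Int.cast_le.2 h1.2).trans (Int.floor_le _)
      rw [le_div_iff₀ hρ] at h3
      constructor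
      · simp only; positivity
      · simp only; linarith
    have h1 := hT hmem
    simp only [Set.mem_iUnion, Metric.mem_ball, exists_prop] at h1
    obtain ⟨x, hx, hd'⟩ := h1
    refine Finset.mem_biUnion.2 ⟨x, hx, ?_⟩
    rw [Fintype.mem_piFinset]
    intro i
    have e4 : |ρ * (d i : ℝ) - x i| < ρ := by
      refine lt_of_le_of_lt ?_ hd'
      rw [dist_eq_norm]
      have := PiLp.norm_apply_le ((WithLp.toLp 2 fun i => ρ * (d i : ℝ) : Sp n) - x) i
      rw [Real.norm_eq_abs] at this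
      exact this
    obtain ⟨h5, h6⟩ := abs_lt.1 e4
    have h7 : (d i : ℝ) < x i / ρ + 1 := by
      rw [div_add_one hρ.ne', lt_div_iff₀ hρ]; linarith
    have h8 : x i / ρ - 1 < d i := by
      rw [div_sub_one hρ.ne', div_lt_iff₀ hρ]; linarith
    have h9 := Int.floor_le (x i / ρ)
    have h10 := Int.lt_floor_add_one (x i / ρ)
    rw [Finset.mem_Icc]
    constructor
    · have : ((⌊x i / ρ⌋ - 1 : ℤ) : ℝ) < (d i : ℝ) := by push_cast; linarith
      have := Int.cast_lt.1 this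
      omega
    · have : (d i : ℝ) < ((⌊x i / ρ⌋ + 1 + 1 : ℤ) : ℝ) := by push_cast; linarith
      have := Int.cast_lt.1 this
      omega
  have hcard : D.card ≤ T.card * 2 ^ n := by
    refine (Finset.card_le_card hsub).trans (Finset.card_biUnion_le.trans ?_)
    refine (Finset.sum_le_card_nsmul _ _ (2 ^ n) fun x _ => ?_).trans (le_of_eq ?_)
    · rw [Fintype.card_piFinset]
      refine (Finset.prod_le_pow_card _ _ 2 fun i _ => ?_).trans (le_of_eq ?_)
      · rw [Int.card_Icc]; omega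
      · rw [Finset.card_univ, Fintype.card_fin]
    · rw [smul_eq_mul]
  have hcard' : (D.card : ℝ) ≤ (T.card : ℝ) * 2 ^ n := by exact_mod_cast hcard
  linarith

theorem covers_mono {n : ℕ} {T : Finset (Sp n)} {δ δ' : ℝ} (h : δ ≤ δ') {B : Set (Sp n)}
    (hT : Covers T δ B) : Covers T δ' B := fun _ hx => by
  have h1 := hT hx
  simp only [Set.mem_iUnion, Metric.mem_ball, exists_prop] at h1 ⊢
  obtain ⟨y, hy, hd⟩ := h1
  exact ⟨y, hy, hd.trans_le h⟩

/-- a homothetic copy of the pattern cannot consist of small layers of the cube -/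
theorem no_pattern {ms : Finset ℕ} (hms : ms.Nonempty) {c : ℝ} (hc : 0 < c)
    (hS : SliceBound ms c) {n : ℕ}
    (a : Sp n → Sp n) {s α β : ℝ} (hs : s < n / c) (hα : α ≠ 0)
    (h : ∀ m ∈ ms, SmallDim s (layer (cube n) a (β + α * m))) : False := by
  classical
  obtain ⟨k, hk⟩ : ∃ k, ∀ m ∈ ms, m < k := ⟨ms.sup id + 1, fun m hm =>
    Nat.lt_succ_of_le (Finset.le_sup (f := id) hm)⟩
  unfold SmallDim at h
  choose! δ₀ hδ₀ h using h
  obtain ⟨η, hη, hηm⟩ : ∃ η : ℝ, 0 < η ∧ ∀ m ∈ ms, η ≤ δ₀ m := by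
    obtain ⟨m₀, hm₀, hmin⟩ := Finset.exists_min_image ms δ₀ hms
    exact ⟨δ₀ m₀, hδ₀ m₀ hm₀, hmin⟩
  have hsc : 0 < (n : ℝ) - s * c := by
    rw [lt_div_iff₀ hc] at hs
    linarith
  obtain ⟨C, hC⟩ : ∃ C : ℝ, C = (|α| / (n + 1)) ^ n := ⟨_, rfl⟩
  have hC0 : 0 < C := by
    rw [hC]
    have := abs_pos.2 hα
    positivity
  obtain ⟨C', hC'⟩ : ∃ C' : ℝ, C' = 2 ^ n * (((k + 2) ^ n : ℕ) : ℝ) ^ c := ⟨_, rfl⟩
  have hC'0 : 0 < C' := by rw [hC']; positivity
  -- the inequality at all small scales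
  have key : ∀ δ : ℝ, 0 < δ → δ < η → C ≤ C' * δ ^ ((n : ℝ) - s * c) := by
    intro δ hδ hlt
    obtain ⟨T, hT1, hT2⟩ := cover_homothetic hc.le hS hk (R := cube n) a hδ ⌊δ ^ (-s)⌋₊ hα
      (β := β) (by
        intro m hm
        obtain ⟨P, hP1, hP2⟩ := h m hm δ hδ (hlt.trans_le (hηm m hm))
        exact ⟨P, Nat.le_floor hP2, fun r hr => hP1 ⟨r, hr, rfl⟩⟩)
    have hρ : 0 < (n + 1) * δ / |α| := by
      have := abs_pos.2 hα
      positivity
    have h1 := cube_cover hρ T hT1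
    have h2 : (1 / ((n + 1) * δ / |α|)) ^ n = C * (δ ^ n)⁻¹ := by
      rw [hC, ← inv_pow, ← mul_pow]
      congr 1
      have : |α| ≠ 0 := (abs_pos.2 hα).ne'
      field_simp
    have hpos : 0 < δ ^ (-s) := Real.rpow_pos_of_pos hδ _
    have h3 : (T.card : ℝ) ≤ (((k + 2) ^ n : ℕ) : ℝ) ^ c * δ ^ (-(s * c)) := by
      refine hT2.trans ?_
      have h4 : ((((k + 2) ^ n * ⌊δ ^ (-s)⌋₊ : ℕ)) : ℝ) ≤ (((k + 2) ^ n : ℕ) : ℝ) * δ ^ (-s) := by
        push_cast
        exact mul_le_mul_of_nonneg_left (Nat.floor_le hpos.le) (by positivity)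
      refine (Real.rpow_le_rpow (Nat.cast_nonneg _) h4 hc.le).trans (le_of_eq ?_)
      rw [Real.mul_rpow (by positivity) hpos.le, ← Real.rpow_mul hδ.le]
      congr 2
      ring
    rw [h2] at h1
    have h5 : C * (δ ^ n)⁻¹ ≤ C' * δ ^ (-(s * c)) := by
      rw [hC', mul_assoc]
      exact h1.trans (mul_le_mul_of_nonneg_left h3 (by positivity))
    have h6 : δ ^ ((n : ℝ) - s * c) = δ ^ n * δ ^ (-(s * c)) := by
      rw [sub_eq_add_neg, Real.rpow_add hδ, Real.rpow_natCast]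
    rw [h6]
    have h7 : 0 < δ ^ n := by positivity
    calc C = C * (δ ^ n)⁻¹ * δ ^ n := by field_simp
      _ ≤ C' * δ ^ (-(s * c)) * δ ^ n := mul_le_mul_of_nonneg_right h5 h7.le
      _ = _ := by ring
  have hlim : Tendsto (fun δ : ℝ => C' * δ ^ ((n : ℝ) - s * c)) (𝓝[>] 0) (𝓝 0) := by
    have h1 : Tendsto (fun δ : ℝ => δ ^ ((n : ℝ) - s * c)) (𝓝[>] 0) (𝓝 0) := by
      have h2 := (Real.continuousAt_rpow_const 0 ((n : ℝ) - s * c) (Or.inr hsc.le)).tendsto
      rw [Real.zero_rpow hsc.ne'] at h2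
      exact h2.mono_left nhdsWithin_le_nhds
    simpa using h1.const_mul C'
  have hev : ∀ᶠ δ : ℝ in 𝓝[>] 0, C' * δ ^ ((n : ℝ) - s * c) < C := hlim.eventually (gt_mem_nhds hC0)
  have hev2 : ∀ᶠ δ : ℝ in 𝓝[>] 0, δ < η := nhdsWithin_le_nhds (gt_mem_nhds hη)
  have hev3 : ∀ᶠ δ : ℝ in 𝓝[>] 0, 0 < δ := self_mem_nhdsWithin
  obtain ⟨δ, h1, h2, h3⟩ := (hev.and (hev2.and hev3)).exists
  exact absurd (key δ h3 h2) (not_le.2 h1)

/-- a set of positive measure contains a homothetic copy of a finite set -/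
theorem pattern_in {ms : Finset ℕ} (hms : ms.Nonempty) {M : Set ℝ} (hM : MeasurableSet M)
    (hpos : volume M ≠ 0) : ∃ α β : ℝ, α ≠ 0 ∧ ∀ m ∈ ms, β + α * (m : ℝ) ∈ M := by
  obtain ⟨u, hu⟩ : ∃ u : ℤ, volume (M ∩ Set.Icc (u : ℝ) (u + 1)) ≠ 0 := by
    by_contra hno
    push Not at hno
    apply hpos
    have h1 : M ⊆ ⋃ u : ℤ, M ∩ Set.Icc (u : ℝ) (u + 1) := by
      intro x hx
      exact Set.mem_iUnion.2 ⟨⌊x⌋, hx, Int.floor_le x, (Int.lt_floor_add_one x).le⟩
    exact measure_mono_null h1 (measure_iUnion_null hno)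
  obtain ⟨M', hM'⟩ : ∃ M', M' = M ∩ Set.Icc (u : ℝ) (u + 1) := ⟨_, rfl⟩
  rw [← hM'] at hu
  have hfin : volume M' ≠ ⊤ := by
    refine ne_top_of_le_ne_top ?_ (measure_mono (show M' ⊆ Set.Icc (u : ℝ) (u + 1) by
      rw [hM']; exact Set.inter_subset_right))
    simp
  have hr : 0 < (volume M').toReal := ENNReal.toReal_pos hu hfin
  obtain ⟨k₀, hk₀⟩ := szem_nat ms hms ((volume M').toReal / 2) (by positivity)
  obtain ⟨x, E, hE1, hE2, hE3⟩ := sample (M := M') (u := (u : ℝ)) (L := 1)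
    (θ := (volume M').toReal / 2) (hM'.symm ▸ hM.inter measurableSet_Icc) one_pos
    (by rw [hM']; exact Set.inter_subset_right) (by
      rw [mul_one]
      rw [ENNReal.ofReal_lt_iff_lt_toReal (by positivity) hfin]
      linarith) (k := max k₀ 1) (by omega) (by positivity)
  obtain ⟨y, m, hm, hy⟩ := hk₀ (max k₀ 1) (le_max_left _ _) 0 E hE1 hE2
  have hk : (0 : ℝ) < ((max k₀ 1 : ℕ) : ℝ) := by
    exact_mod_cast (by omega : 0 < max k₀ 1)
  have hm' : (0 : ℝ) < m := by exact_mod_cast (by omega : 0 < m)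
  refine ⟨1 / ((max k₀ 1 : ℕ) : ℝ) * m, x + 1 / ((max k₀ 1 : ℕ) : ℝ) * y, by positivity,
    fun b hb => ?_⟩
  have h1 := hE3 _ (hy b hb)
  rw [hM'] at h1
  have h2 : x + 1 / ((max k₀ 1 : ℕ) : ℝ) * ((y + m * (b : ℤ) : ℤ) : ℝ) =
      x + 1 / ((max k₀ 1 : ℕ) : ℝ) * y + 1 / ((max k₀ 1 : ℕ) : ℝ) * m * (b : ℝ) := by
    push_cast
    ring
  rw [h2] at h1
  exact h1.1

theorem ncard_filter (p : ℤ → Prop) [DecidablePred p] (s : ℤ) (k : ℕ) :
    Set.ncard {j : ℤ | s ≤ j ∧ j < s + k ∧ p j} = ((Finset.Ico s (s + k)).filter p).card := by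
  rw [← Set.ncard_coe_finset]
  congr 1
  ext j
  simp [and_assoc]

end Aux

open Aux Pool.Agent.X163.Ak

/-- Let `c ≥ 3/2` and `7c⁴ - 6c³ - 21c² + 24c - 8 > 0` (so `c > 1.66958684…`).  There is `K`, and for
every `θ > 0` there is `k₀`, such that for every dimension `n` (the function `a` is arbitrary):

1. (progressions, one scale) if among the `k ≥ k₀` parameters `β + α j`, `s ≤ j < s + k`, more than
  `θ k` have a layer that is covered by `N` balls of radius `δ`, then `R` is covered by at most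
  `(K ^ n N) ^ c` balls of radius `(n + 1) δ / |α|`;
2. (measure, one scale) if a measurable subset of measure more than `θ L` of an interval of length
  `L` consists of such parameters, then `R` is covered by at most `(K ^ n N) ^ c` balls of radius
  `(n + 1) δ k₀ / L`;
3. (dimension) let `R = [0,1]^n` and `s < n / c`.  Every measurable set of parameters `t` whose
  layers have upper Minkowski dimension less than `s` is a null set, and at most `θ k` of the
  parameters `β + α j`, `s' ≤ j < s' + k`, of a progression with `k ≥ k₀` terms have this property. -/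
theorem result (c : ℝ) (hc : 3 / 2 ≤ c) (hq : 0 < 7 * c ^ 4 - 6 * c ^ 3 - 21 * c ^ 2 + 24 * c - 8) :
    ∃ K : ℕ, ∀ θ : ℝ, 0 < θ → ∃ k₀ : ℕ, ∀ n : ℕ,
      (∀ (R : Set (Sp n)) (a : Sp n → Sp n) (δ : ℝ) (N : ℕ), 0 < δ →
        (∀ (α β : ℝ) (s : ℤ) (k : ℕ), α ≠ 0 → k₀ ≤ k →
          θ * k < (Set.ncard {j : ℤ | s ≤ j ∧ j < s + k ∧
            CoverLE (layer R a (β + α * j)) δ N} : ℝ) →
          ∃ T : Finset (Sp n), Covers T ((n + 1) * δ / |α|) R ∧
            (T.card : ℝ) ≤ ((K ^ n * N : ℕ) : ℝ) ^ c) ∧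
        (∀ (M : Set ℝ) (u L : ℝ), MeasurableSet M → 0 < L → M ⊆ Set.Icc u (u + L) →
          ENNReal.ofReal (θ * L) < volume M → (∀ t ∈ M, CoverLE (layer R a t) δ N) →
          ∃ T : Finset (Sp n), Covers T ((n + 1) * δ * k₀ / L) R ∧
            (T.card : ℝ) ≤ ((K ^ n * N : ℕ) : ℝ) ^ c)) ∧
      (∀ (a : Sp n → Sp n) (s : ℝ), s < n / c →
        (∀ M : Set ℝ, MeasurableSet M → (∀ t ∈ M, SmallDim s (layer (cube n) a t)) →
          volume M = 0) ∧
        (∀ (α β : ℝ) (s' : ℤ) (k : ℕ), α ≠ 0 → k₀ ≤ k →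
          (Set.ncard {j : ℤ | s' ≤ j ∧ j < s' + k ∧
            SmallDim s (layer (cube n) a (β + α * j))} : ℝ) ≤ θ * k)) := by
  classical
  have hc0 : 0 < c := by linarith
  obtain ⟨ms, hms, -, hSB⟩ := Pool.Agent.W814.BB.sliceBound_of_SDc hc0.le (sdc_root hc hq)
  have hk : ∀ m ∈ ms, m < ms.sup id + 1 := fun m hm =>
    Nat.lt_succ_of_le (Finset.le_sup (f := id) hm)
  refine ⟨ms.sup id + 1 + 2, fun θ hθ => ?_⟩
  obtain ⟨k₁, hk₁⟩ := szem_nat ms hms θ hθ
  refine ⟨max k₁ 1, fun n => ⟨fun R a δ N hδ => ⟨fun α β s k hα hkk hcard => ?_,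
    fun M u L hM hL hMu hvol hcov => ?_⟩, fun a s hs => ⟨fun M hM hsm => ?_,
    fun α β s' k hα hkk => ?_⟩⟩⟩
  · rw [ncard_filter] at hcard
    obtain ⟨x, m, hm, hx⟩ := hk₁ k ((le_max_left _ _).trans hkk) s _ (Finset.filter_subset _ _) hcard
    have hm' : (1 : ℝ) ≤ m := by exact_mod_cast hm
    have hαm : α * m ≠ 0 := mul_ne_zero hα (by positivity)
    obtain ⟨T, hT1, hT2⟩ := cover_homothetic hc0.le hSB hk (R := R) a hδ N hαm
      (β := β + α * x) (by
        intro b hb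
        obtain ⟨P, hP1, hP2⟩ := (Finset.mem_filter.1 (hx b hb)).2
        refine ⟨P, hP1, fun r hr => ?_⟩
        have h1 : β + α * x + α * m * (b : ℝ) = β + α * ((x + m * (b : ℤ) : ℤ) : ℝ) := by
          push_cast
          ring
        rw [h1]
        exact hP2 ⟨r, hr, rfl⟩)
    refine ⟨T, covers_mono ?_ hT1, hT2⟩
    rw [abs_mul]
    refine div_le_div_of_nonneg_left (by positivity) (abs_pos.2 hα) ?_
    rw [abs_of_pos (by linarith : (0 : ℝ) < m)]
    exact le_mul_of_one_le_right (abs_nonneg _) hm'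
  · have hkpos : 0 < max k₁ 1 := by omega
    obtain ⟨x, E, hE1, hE2, hE3⟩ := sample hM hL hMu hvol hkpos hθ.le
    obtain ⟨y, m, hm, hy⟩ := hk₁ (max k₁ 1) (le_max_left _ _) 0 E hE1 hE2
    have hm' : (1 : ℝ) ≤ m := by exact_mod_cast hm
    have hkR : (0 : ℝ) < ((max k₁ 1 : ℕ) : ℝ) := by exact_mod_cast hkpos
    obtain ⟨l, hl⟩ : ∃ l : ℝ, l = L / ((max k₁ 1 : ℕ) : ℝ) := ⟨_, rfl⟩
    have hl0 : 0 < l := by rw [hl]; positivity
    have hlm : l * m ≠ 0 := by positivity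
    obtain ⟨T, hT1, hT2⟩ := cover_homothetic hc0.le hSB hk (R := R) a hδ N hlm
      (β := x + l * y) (by
        intro b hb
        obtain ⟨P, hP1, hP2⟩ := hcov _ (hE3 _ (hy b hb))
        refine ⟨P, hP1, fun r hr => ?_⟩
        have h1 : x + l * y + l * m * (b : ℝ) = x + l * ((y + m * (b : ℤ) : ℤ) : ℝ) := by
          push_cast
          ring
        rw [h1, hl]
        exact hP2 ⟨r, hr, rfl⟩)
    refine ⟨T, covers_mono ?_ hT1, hT2⟩
    have h2 : (n + 1) * δ * ((max k₁ 1 : ℕ) : ℝ) / L = (n + 1) * δ / l := by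
      rw [hl]
      field_simp
    rw [h2, abs_of_pos (by positivity)]
    refine div_le_div_of_nonneg_left (by positivity) hl0 ?_
    exact le_mul_of_one_le_right hl0.le hm'
  · by_contra hpos
    obtain ⟨α, β, hα, hpat⟩ := pattern_in hms hM hpos
    exact no_pattern hms hc0 hSB a hs hα fun m hm => hsm _ (hpat m hm)
  · by_contra hlt
    push Not at hlt
    rw [ncard_filter] at hlt
    obtain ⟨x, m, hm, hx⟩ := hk₁ k ((le_max_left _ _).trans hkk) s' _ (Finset.filter_subset _ _) hlt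
    have hm' : (1 : ℝ) ≤ m := by exact_mod_cast hm
    have hαm : α * m ≠ 0 := mul_ne_zero hα (by positivity)
    refine no_pattern hms hc0 hSB a hs hαm (β := β + α * x) fun b hb => ?_
    have h1 := (Finset.mem_filter.1 (hx b hb)).2
    have h2 : β + α * x + α * m * (b : ℝ) = β + α * ((x + m * (b : ℤ) : ℤ) : ℝ) := by
      push_cast
      ring
    rw [h2]
    exact h1

end Pool.Agent.Results.MP_4b405e_nt.AlmostAllLayers
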