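import Pool.Agent.X163.Ak.Root
import Pool.Agent.X163.Ak.Mink

set_option autoImplicit false

/-!
# MP_4b405e_nt: `lim f^M_n(k) ≥ n / α` with the root `α = 1.66958684…` of `7x⁴ - 6x³ - 21x² + 24x - 8`

Let `c ≥ 3/2` satisfy `7c⁴ - 6c³ - 21c² + 24c - 8 > 0`; these are the numbers above the root
`α = 1.66958684…`, for instance `1.6695869`.  There is `k`, which depends on `c` only, such that in
every dimension `n` the sets which contain `k`-term progressions with every common difference in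
`[0,1]^n` have lower Minkowski dimension at least `n / c > 0.59895 n`.  More generally, for an
arbitrary set `R ⊆ ℝ^n` of common differences the covering numbers of `R` are bounded by the `c`-th
power of those of `B`.
-/

namespace Pool.Agent.Results.MP_4b405e_nt.ChainRootExponent

/-- `ℝ^n` -/
abbrev Sp (n : ℕ) : Type := EuclideanSpace ℝ (Fin n)

/-- `B` contains a `k`-term progression with every common difference in `R` -/
def Progs {n : ℕ} (k : ℕ) (R B : Set (Sp n)) : Prop :=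
  ∀ r ∈ R, ∃ a : Sp n, ∀ j : ℕ, j < k → a + (j : ℝ) • r ∈ B

/-- the cube `[0,1]^n` -/
def cube (n : ℕ) : Set (Sp n) := {r | ∀ i, r i ∈ Set.Icc (0 : ℝ) 1}

/-- the balls of radius `δ` with centres in the finite set `P` cover `B` -/
def Covers {n : ℕ} (P : Finset (Sp n)) (δ : ℝ) (B : Set (Sp n)) : Prop :=
  B ⊆ ⋃ x ∈ P, Metric.ball x δ

/-- Let `c ≥ 3/2` and `7c⁴ - 6c³ - 21c² + 24c - 8 > 0`. There is `k` (depending on `c` only) such that
for all `n`:

1. If `B ⊆ ℝ^n` contains a `k`-term progression with every common difference in `[0,1]^n`, then for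
every `δ > 0` at least `(k + 2) ^ (-n) δ ^ (-n / c)` balls of radius `δ` are needed to cover `B`. In
particular for every `s < n / c` and all small `δ` at least `δ ^ (-s)` balls are needed.
2. Let `R ⊆ ℝ^n` be arbitrary and let `B` contain a `k`-term progression with every common difference
in `R`. If `B` is covered by `N` balls of radius `δ`, then `R` is covered by at most
`((k + 2) ^ n N) ^ c` balls of radius `(n + 1) δ`.

The number `c = 1.6695869` is allowed, and `n / c ≥ 0.59895 n`. -/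
theorem result :
    (∀ c : ℝ, 3 / 2 ≤ c → 0 < 7 * c ^ 4 - 6 * c ^ 3 - 21 * c ^ 2 + 24 * c - 8 →
      ∃ k : ℕ, ∀ n : ℕ,
        (∀ B : Set (Sp n), Progs k (cube n) B →
          (∀ δ : ℝ, 0 < δ → ∀ P : Finset (Sp n), Covers P δ B →
            ((k : ℝ) + 2) ^ (-(n : ℝ)) * δ ^ (-(n / c)) ≤ P.card) ∧
          ∀ s < n / c, ∃ δ₀ > 0, ∀ δ : ℝ, 0 < δ → δ < δ₀ → ∀ P : Finset (Sp n), Covers P δ B →
            δ ^ (-s) ≤ P.card) ∧
        ∀ R B : Set (Sp n), Progs k R B → ∀ δ : ℝ, 0 < δ → ∀ P : Finset (Sp n), Covers P δ B →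
          ∃ T : Finset (Sp n), Covers T ((n + 1) * δ) R ∧
            (T.card : ℝ) ≤ (((k + 2) ^ n * P.card : ℕ) : ℝ) ^ c) ∧
    (0 : ℝ) < 7 * 1.6695869 ^ 4 - 6 * 1.6695869 ^ 3 - 21 * 1.6695869 ^ 2 + 24 * 1.6695869 - 8 ∧
    ∀ n : ℕ, 0.59895 * (n : ℝ) ≤ n / 1.6695869 := by
  refine ⟨fun c hc hq => ?_, by norm_num, fun n => ?_⟩
  · have hc0 : 0 < c := by linarith
    obtain ⟨ms, -, -, hSB⟩ := Pool.Agent.W814.BB.sliceBound_of_SDc hc0.le
      (Pool.Agent.X163.Ak.sdc_root hc hq)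
    have hk : ∀ m ∈ ms, m < ms.sup id + 1 := fun m hm =>
      Nat.lt_succ_of_le (Finset.le_sup (f := id) hm)
    refine ⟨ms.sup id + 1, fun n => ⟨fun B hB => ?_, fun R B hB δ hδ P hP =>
      Pool.Agent.X163.Ak.mink_cover hc0.le hSB hk hB hδ P hP⟩⟩
    generalize ms.sup id + 1 = k at hB hk
    have main : ∀ δ : ℝ, 0 < δ → ∀ P : Finset (Sp n), Covers P δ B →
        ((k : ℝ) + 2) ^ (-(n : ℝ)) * δ ^ (-(n / c)) ≤ P.card := by
      intro δ hδ P hP
      have h1 := Pool.Agent.X163.Ak.mink_cube hc0 hSB hk hB hδ P hP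
      rw [Real.rpow_neg (by positivity), Real.rpow_natCast, inv_mul_le_iff₀ (by positivity)]
      exact h1
    refine ⟨main, fun s hs => ?_⟩
    obtain ⟨e, he⟩ : ∃ e : ℝ, e = n / c - s := ⟨_, rfl⟩
    have he0 : 0 < e := by rw [he]; linarith
    obtain ⟨K, hK⟩ : ∃ K : ℝ, K = ((k : ℝ) + 2) ^ (-(n : ℝ)) := ⟨_, rfl⟩
    have hK0 : 0 < K := by rw [hK]; positivity
    refine ⟨K ^ (1 / e), by positivity, fun δ hδ hlt P hP => ?_⟩
    refine le_trans ?_ (main δ hδ P hP)
    rw [← hK, show -(n / c) = -e + -s by rw [he]; ring, Real.rpow_add hδ, ← mul_assoc]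
    have h1 : δ ^ e ≤ K := by
      have := Real.rpow_le_rpow hδ.le hlt.le he0.le
      rwa [← Real.rpow_mul hK0.le, one_div_mul_cancel he0.ne', Real.rpow_one] at this
    have h2 : 1 ≤ K * δ ^ (-e) := by
      rw [Real.rpow_neg hδ.le, ← div_eq_mul_inv, one_le_div (by positivity)]
      exact h1
    calc δ ^ (-s) = 1 * δ ^ (-s) := (one_mul _).symm
      _ ≤ K * δ ^ (-e) * δ ^ (-s) := mul_le_mul_of_nonneg_right h2 (by positivity)
  · have hn : (0 : ℝ) ≤ n := Nat.cast_nonneg n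
    rw [le_div_iff₀ (by norm_num)]
    nlinarith

end Pool.Agent.Results.MP_4b405e_nt.ChainRootExponent
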