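import Pool.Agent.X163.Ak.Diff

set_option autoImplicit false

/-!
# MP_4b405e_nt: progressions with differentiable first term

`B ⊆ ℝ^n` contains the progressions `a r, a r + r, …, a r + (k - 1) r`.  The first term `a r` is
differentiable relative to a set `R` of common differences of positive Lebesgue measure, almost
everywhere on `R` (for instance `a` is Lipschitz on `R`, or `n = 1` and `a` is monotone or of locally
bounded variation on `R`; nothing is assumed outside of `R`).  The measure of `R` is the outer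
measure; `R` and `B` need not be measurable.
-/

namespace Pool.Agent.Results.MP_4b405e_nt.DifferentiableSelections

open MeasureTheory Set

/-- `ℝ^n` -/
abbrev Sp (n : ℕ) : Type := EuclideanSpace ℝ (Fin n)

/-- `a` is differentiable relative to `R` at almost all points of `R` -/
def DiffOn {n : ℕ} (a : Sp n → Sp n) (R : Set (Sp n)) : Prop :=
  ∀ᵐ r ∂(volume : Measure (Sp n)), r ∈ R → DifferentiableWithinAt ℝ a R r

/-- the layer `{a r + l r : r ∈ R}` -/
def layer {n : ℕ} (a : Sp n → Sp n) (R : Set (Sp n)) (l : ℝ) : Set (Sp n) :=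
  (fun r => a r + l • r) '' R

/-- at every scale `δ` at least `κ δ ^ (-s)` balls of radius `δ` are needed to cover `B` -/
def CoverAtLeast {n : ℕ} (B : Set (Sp n)) (s : ℝ) : Prop :=
  ∃ κ : ℝ, 0 < κ ∧ ∀ δ : ℝ, 0 < δ → ∀ S : Finset (Sp n), B ⊆ (⋃ x ∈ S, Metric.ball x δ) →
    κ * δ ^ (-s) ≤ S.card

/-- Part 1: for `m ≤ n` and all real numbers `l` with at most `⌊n / (n - m + 1)⌋` exceptions, the layer
of `l` has a linear image in `ℝ^m` of positive measure; and whenever this is so, its Hausdorff
dimension is at least `m`, and it needs `≫ δ ^ (-m)` balls of radius `δ`. -/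
def FewExceptions (n : ℕ) (a : Sp n → Sp n) (R : Set (Sp n)) : Prop :=
  ∀ m ≤ n, {l : ℝ | ∀ P : Sp n →L[ℝ] (Fin m → ℝ), volume (P '' layer a R l) = 0}.encard ≤
      ((n / (n - m + 1) : ℕ) : ℕ∞) ∧
    ∀ l : ℝ, (∃ P : Sp n →L[ℝ] (Fin m → ℝ), volume (P '' layer a R l) ≠ 0) →
      (m : ENNReal) ≤ dimH (layer a R l) ∧ CoverAtLeast (layer a R l) m

/-- Part 2: for all real `l` with at most `n` exceptions the layer of `l` has positive measure. -/
def FewNullLayers (n : ℕ) (a : Sp n → Sp n) (R : Set (Sp n)) : Prop :=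
  {l : ℝ | volume (layer a R l) = 0}.encard ≤ (n : ℕ∞)

/-- Part 3: if `B` contains `a r + j r` for all `r ∈ R` and `0 ≤ j < k`, `k ≥ 1`, then the Hausdorff
dimension of `B` is at least `n - ⌊n / k⌋`, `B` needs `≫ δ ^ (-(n - ⌊n / k⌋))` balls of radius `δ`,
and if `k ≥ n + 1` then `B` has positive measure. -/
def LargeSets (n : ℕ) (a : Sp n → Sp n) (R : Set (Sp n)) : Prop :=
  ∀ (k : ℕ) (B : Set (Sp n)), 1 ≤ k → (∀ r ∈ R, ∀ j < k, a r + (j : ℝ) • r ∈ B) →
    ((n - n / k : ℕ) : ENNReal) ≤ dimH B ∧ CoverAtLeast B ((n - n / k : ℕ) : ℝ) ∧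
      (n + 1 ≤ k → volume B ≠ 0)

/-- Part 4: `n = 1` and `a` is of locally bounded variation (or monotone) on `R`: for all real `l`
with at most one exception `{a r + l r : r ∈ R}` has positive measure. -/
def OneDimensional : Prop := ∀ (R : Set ℝ) (a : ℝ → ℝ), volume R ≠ 0 →
  (LocallyBoundedVariationOn a R ∨ MonotoneOn a R ∨ AntitoneOn a R) →
    {l : ℝ | volume ((fun r => a r + l * r) '' R) = 0}.encard ≤ 1

/-- Part 5: for all real `l_1, …, l_n` there is a linear `a` such that the layer of `l_i` is in the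
hyperplane `x_i = 0`; and for every `k ≥ 1` there is a linear `a` such that for every `j < k` at least
`⌊n / k⌋` coordinates of all the points `a r + j r` are zero. -/
def Optimal (n : ℕ) : Prop :=
  (∀ l : Fin n → ℝ, ∃ a : Sp n →ₗ[ℝ] Sp n, ∀ i r, (a r + l i • r) i = 0) ∧
  ∀ k : ℕ, 1 ≤ k → ∃ a : Sp n →ₗ[ℝ] Sp n, ∀ j < k, ∃ I : Finset (Fin n), n / k ≤ I.card ∧
    ∀ i ∈ I, ∀ r, (a r + (j : ℝ) • r) i = 0

/-- Let `R ⊆ ℝ^n` have positive outer Lebesgue measure and let `a : ℝ^n → ℝ^n` be differentiable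
relative to `R` at almost all points of `R` (for instance Lipschitz on `R`).

1. For every `m ≤ n` and all real numbers `l`, with at most `⌊n / (n - m + 1)⌋` exceptions, the layer
`{a r + l r : r ∈ R}` has a linear image in `ℝ^m` of positive measure; so its Hausdorff dimension is
at least `m`, and it needs `≫ δ ^ (-m)` balls of radius `δ`.
2. For all real `l` with at most `n` exceptions the layer `{a r + l r : r ∈ R}` has positive measure.
3. Let `B` contain `a r + j r` for all `r ∈ R` and `0 ≤ j < k`. Then the Hausdorff dimension of `B` is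
at least `n - ⌊n / k⌋` and `B` needs `≫ δ ^ (-(n - ⌊n / k⌋))` balls of radius `δ`; and if `k ≥ n + 1`
then `B` has positive measure.
4. For `n = 1` it is enough that `a` is of locally bounded variation on `R`, for instance monotone:
for all real `l` with at most one exception the set `{a r + l r : r ∈ R}` has positive measure.
5. The numbers `n` in 2 and `n - ⌊n / k⌋` in 3 are optimal, even for linear `a`. -/
theorem result :
    (∀ (n : ℕ) (R : Set (Sp n)) (a : Sp n → Sp n), volume R ≠ 0 →
      (DiffOn a R ∨ ∃ K, LipschitzOnWith K a R) →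
        FewExceptions n a R ∧ FewNullLayers n a R ∧ LargeSets n a R) ∧
    OneDimensional ∧ ∀ n, Optimal n := by
  have fr : ∀ n : ℕ, Module.finrank ℝ (Sp n) = n := fun n => by simp
  have null : ∀ (n : ℕ) (X : Set (Sp n)), volume X = 0 → ∀ P : Sp n →L[ℝ] (Fin n → ℝ),
      volume (P '' X) = 0 := by
    intro n X hX
    have := fun P => Pool.Agent.X163.Ak.null_image (volume : Measure (Sp n)) hX P
    rw [fr n] at this
    exact this
  have p1 : ∀ (n : ℕ) (R : Set (Sp n)) (a : Sp n → Sp n), volume R ≠ 0 → DiffOn a R →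
      ∀ m ≤ n, {l : ℝ | ∀ P : Sp n →L[ℝ] (Fin m → ℝ), volume (P '' layer a R l) = 0}.encard ≤
          ((n / (n - m + 1) : ℕ) : ℕ∞) := by
    intro n R a hR ha m hm
    have := Pool.Agent.X163.Ak.exceptional (volume : Measure (Sp n)) hR ha (m := m)
      (by rw [fr n]; exact hm)
    rw [fr n] at this
    exact this
  have p2 : ∀ (n : ℕ) (R : Set (Sp n)) (a : Sp n → Sp n), volume R ≠ 0 → DiffOn a R →
      {l : ℝ | volume (layer a R l) = 0}.encard ≤ (n : ℕ∞) := by
    intro n R a hR ha
    have h1 := p1 n R a hR ha n le_rfl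
    rw [Nat.sub_self, zero_add, Nat.div_one] at h1
    exact (Set.encard_le_encard fun l hl P => null n _ hl P).trans h1
  refine ⟨fun n R a hR ha => ?_, fun R a hR ha => ?_, fun n => ⟨fun l => ?_, fun k hk => ?_⟩⟩
  · have ha : DiffOn a R := by
      rcases ha with h | ⟨K, hK⟩
      · exact h
      · exact hK.ae_differentiableWithinAt_of_mem
    refine ⟨fun m hm => ⟨p1 n R a hR ha m hm, fun l ⟨P, hP⟩ =>
      ⟨Pool.Agent.X163.Ak.dimH_of_image hP, Pool.Agent.X163.Ak.cover_of_image hP⟩⟩, p2 n R a hR ha,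
      fun k B hk hB => ?_⟩
    have hinj : Function.Injective (fun j : ℕ => (j : ℝ)) := Nat.cast_injective
    have hlay : ∀ j < k, layer a R (j : ℝ) ⊆ B := by
      rintro j hj _ ⟨r, hr, rfl⟩
      exact hB r hr j hj
    have key : ∃ P : Sp n →L[ℝ] (Fin (n - n / k) → ℝ), volume (P '' B) ≠ 0 := by
      have hdk : n / (n - (n - n / k) + 1) < k := by
        rw [Nat.sub_sub_self (Nat.div_le_self n k), Nat.div_lt_iff_lt_mul (Nat.succ_pos _)]
        exact Nat.lt_mul_div_succ n hk
      obtain ⟨l, hl, P, hP⟩ := Pool.Agent.X163.Ak.one_layer (volume : Measure (Sp n)) hR ha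
        (m := n - n / k) (by rw [fr n]; exact Nat.sub_le _ _)
        ((Finset.range k).image (fun j : ℕ => (j : ℝ))) (by
          rw [Finset.card_image_of_injective _ hinj, Finset.card_range, fr n]; exact hdk)
      obtain ⟨j, hj, rfl⟩ := Finset.mem_image.1 hl
      exact ⟨P, fun h0 => hP (measure_mono_null (image_mono (hlay j (Finset.mem_range.1 hj))) h0)⟩
    obtain ⟨P, hP⟩ := key
    refine ⟨Pool.Agent.X163.Ak.dimH_of_image hP, Pool.Agent.X163.Ak.cover_of_image hP,
      fun hkn h0 => ?_⟩
    have h1 := p2 n R a hR ha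
    have h2 : ((Finset.range k).image (fun j : ℕ => (j : ℝ)) : Set ℝ) ⊆
        {l : ℝ | volume (layer a R l) = 0} := by
      intro l hl
      obtain ⟨j, hj, rfl⟩ := Finset.mem_image.1 (Finset.mem_coe.1 hl)
      exact measure_mono_null (hlay j (Finset.mem_range.1 hj)) h0
    have h3 := (Set.encard_le_encard h2).trans h1
    rw [Set.encard_coe_eq_coe_finsetCard, Finset.card_image_of_injective _ hinj,
      Finset.card_range] at h3
    have h4 : k ≤ n := by exact_mod_cast h3
    omega
  · have ha' : ∀ᵐ r, r ∈ R → DifferentiableWithinAt ℝ a R r := by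
      rcases ha with h | h | h
      · exact h.ae_differentiableWithinAt_of_mem
      · exact h.locallyBoundedVariationOn.ae_differentiableWithinAt_of_mem
      · have h1 := (h.neg).locallyBoundedVariationOn.ae_differentiableWithinAt_of_mem
        filter_upwards [h1] with r hr hrR
        have := (hr hrR).neg
        simpa using this
    have h1 := Pool.Agent.X163.Ak.exceptional (volume : Measure ℝ) hR ha'
      (m := Module.finrank ℝ ℝ) le_rfl
    rw [Module.finrank_self] at h1
    refine (Set.encard_le_encard fun l hl P => ?_).trans (h1.trans (by simp))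
    have h2 := Pool.Agent.X163.Ak.null_image (volume : Measure ℝ) hl
    rw [Module.finrank_self] at h2
    exact h2 P
  · refine ⟨(WithLp.linearEquiv 2 ℝ (Fin n → ℝ)).symm.toLinearMap ∘ₗ
      (LinearMap.pi fun i => (-(l i)) • (LinearMap.proj i : (Fin n → ℝ) →ₗ[ℝ] ℝ)) ∘ₗ
        (WithLp.linearEquiv 2 ℝ (Fin n → ℝ)).toLinearMap, fun i r => ?_⟩
    simp
  · refine ⟨(WithLp.linearEquiv 2 ℝ (Fin n → ℝ)).symm.toLinearMap ∘ₗ
      (LinearMap.pi fun i => (-(((i : ℕ) % k : ℕ) : ℝ)) •
        (LinearMap.proj i : (Fin n → ℝ) →ₗ[ℝ] ℝ)) ∘ₗ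
        (WithLp.linearEquiv 2 ℝ (Fin n → ℝ)).toLinearMap, fun j hj =>
      ⟨Finset.univ.filter fun i : Fin n => (i : ℕ) % k = j, ?_, fun i hi r => ?_⟩⟩
    · have hlt : ∀ q : Fin (n / k), k * (q : ℕ) + j < n := by
        intro q
        have h1 := q.2
        have h2 := Nat.mul_div_le n k
        have h3 : k * ((q : ℕ) + 1) ≤ k * (n / k) := Nat.mul_le_mul_left _ h1
        rw [Nat.mul_add, Nat.mul_one] at h3
        omega
      have h1 : (Finset.univ.image fun q : Fin (n / k) => (⟨k * (q : ℕ) + j, hlt q⟩ : Fin n)) ⊆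
          Finset.univ.filter fun i : Fin n => (i : ℕ) % k = j := by
        intro i hi
        obtain ⟨q, -, rfl⟩ := Finset.mem_image.1 hi
        rw [Finset.mem_filter]
        refine ⟨Finset.mem_univ _, ?_⟩
        simp only
        rw [Nat.mul_add_mod, Nat.mod_eq_of_lt hj]
      have h2 := Finset.card_le_card h1
      rwa [Finset.card_image_of_injective _ (by
        intro q q' h
        simp only [Fin.mk.injEq] at h
        have h3 : k * (q : ℕ) = k * (q' : ℕ) := by omega
        exact Fin.ext (Nat.eq_of_mul_eq_mul_left hk h3)), Finset.card_univ, Fintype.card_fin] at h2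
    · have hi' := (Finset.mem_filter.1 hi).2
      simp [hi']

end Pool.Agent.Results.MP_4b405e_nt.DifferentiableSelections
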