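import Pool.Agent.X163.Ak.RareSel
import Pool.Agent.Results.MP_4b405e_nt.ChainRootExponent

/-!
# MP_4b405e_nt: many progressions with the same difference, and the number of the bad selections

Let `3/2 ≤ c ≤ 2` be above the root `α = 1.66958684…` of `7x⁴ - 6x³ - 21x² + 24x - 8`; `k` depends on `c`
only. If a set `B ⊆ ℝ^n` contains many `k`-term progressions with each common difference, then it is
larger: in all dimensions and at all scales `∑_r N(r) ^ (c - 1)` is at most the `c`-th power of the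
covering number of `B`, up to a constant, where `N(r)` is the covering number of the set of the first
terms of the progressions with difference `r`. If these sets have lower Minkowski dimension at least
`μ` (uniformly in `r`), then `B` has lower Minkowski dimension at least `(n + (c - 1) μ) / c`, which is
`n` for `μ = n` and the bound `n / c` for `μ = 0`.

Selections of first terms for which `B` is small are rare: among the `M` functions from the grid
`{0, …, N - 1}^n` to itself at most `M ^ (1 - c ε / ((c - 1) n) + o(1))` have the property that the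
progressions `a r, a r + r, …, a r + (k - 1) r` together have fewer than `N ^ (n - ε)` points.

Proof. The inequality with multiplicities is transferred from `ℤ` (`MP_169869_co.FibreMultiplicity`).
For the selections use the union bound over all small sets.
-/

set_option autoImplicit false

open Finset Filter Topology

namespace Pool.Agent.Results.MP_4b405e_nt.ManyProgressions

open Pool.Agent.Results.MP_4b405e_nt.ChainRootExponent (Sp Covers cube)
open Pool.Agent.X163.Ak.MultN (SD Separated)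
open Pool.Agent.X163.Ak.RareSel (grid pts)

/-- The first terms of the `k`-term progressions in `B` with difference `r`. -/
def firsts {n : ℕ} (k : ℕ) (B : Set (Sp n)) (r : Sp n) : Set (Sp n) :=
  {a | ∀ j : ℕ, j < k → a + (j : ℝ) • r ∈ B}

namespace Aux

/-- a separated set as large as the covering number -/
theorem exists_sep {n : ℕ} {s : ℝ} (hs : 0 < s) (F : Set (Sp n)) (m : ℕ)
    (h : ∀ Q : Finset (Sp n), Covers Q s F → m ≤ Q.card) :
    ∃ S : Finset (Sp n), (∀ x ∈ S, x ∈ F) ∧ Separated s (↑S : Set (Sp n)) ∧ m ≤ S.card := by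
  classical
  by_contra hcon
  push Not at hcon
  obtain ⟨S, ⟨hSF, hSs⟩, hmax⟩ : ∃ S : Finset (Sp n), ((∀ x ∈ S, x ∈ F) ∧ Separated s (↑S : Set (Sp n))) ∧
      ∀ S' : Finset (Sp n), ((∀ x ∈ S', x ∈ F) ∧ Separated s (↑S' : Set (Sp n))) → S'.card ≤ S.card := by
    obtain ⟨p, hp⟩ : ∃ p : ℕ → Prop, p = fun l => ∃ S : Finset (Sp n),
        ((∀ x ∈ S, x ∈ F) ∧ Separated s (↑S : Set (Sp n))) ∧ S.card = l := ⟨_, rfl⟩
    have hb : ∀ l, p l → l ≤ m := by
      intro l hl
      rw [hp] at hl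
      obtain ⟨S, hS, rfl⟩ := hl
      exact (hcon S hS.1 hS.2).le
    have h0 : p 0 := by
      rw [hp]
      exact ⟨∅, ⟨by simp, by intro x hx; simp at hx⟩, rfl⟩
    have h1 : ∀ l, p l → ∃ S : Finset (Sp n),
        ((∀ x ∈ S, x ∈ F) ∧ Separated s (↑S : Set (Sp n))) ∧ S.card = l := by
      intro l hl
      rw [hp] at hl
      exact hl
    obtain ⟨S, hS, hcard⟩ := h1 _ (Nat.findGreatest_spec (P := p) (Nat.zero_le m) h0)
    refine ⟨S, hS, fun S' hS' => ?_⟩
    rw [hcard]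
    refine Nat.le_findGreatest (hb _ ?_) ?_
    · rw [hp]; exact ⟨S', hS', rfl⟩
    · rw [hp]; exact ⟨S', hS', rfl⟩
  have hcov : Covers S s F := by
    intro x hx
    by_contra hxn
    simp only [Set.mem_iUnion, Metric.mem_ball, exists_prop, not_exists, not_and, not_lt] at hxn
    have hxS : x ∉ S := by
      intro hxS
      have := hxn x hxS
      rw [dist_self] at this
      linarith
    have h1 := hmax (insert x S) ⟨by
      intro y hy
      rcases mem_insert.1 hy with rfl | hy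
      · exact hx
      · exact hSF y hy, by
      intro y hy z hz hyz
      rw [coe_insert] at hy hz
      rcases hy with rfl | hy
      · rcases hz with rfl | hz
        · exact absurd rfl hyz
        · exact hxn z hz
      · rcases hz with rfl | hz
        · rw [dist_comm]
          exact hxn y hy
        · exact hSs y hy z hz hyz⟩
    rw [card_insert_of_notMem hxS] at h1
    omega
  have h1 := h S hcov
  have h2 := hcon S hSF hSs
  omega

/-- the grid in the cube -/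
theorem exists_grid (n : ℕ) {s : ℝ} (hs : 0 < s) :
    ∃ R : Finset (Sp n), (∀ r ∈ R, r ∈ cube n) ∧ Separated s (↑R : Set (Sp n)) ∧ (1 / s) ^ n ≤ (R.card : ℝ) := by
  classical
  obtain ⟨L, hL⟩ : ∃ L, L = ⌊1 / s⌋₊ := ⟨_, rfl⟩
  obtain ⟨f, hf⟩ : ∃ f : (Fin n → ℕ) → Sp n, f = fun d => WithLp.toLp 2 fun i => s * (d i : ℝ) := ⟨_, rfl⟩
  have hfi : Function.Injective f := by
    intro x y hxy
    rw [hf] at hxy
    ext i
    have h1 := congrFun (congrArg (fun z : Sp n => (z : Fin n → ℝ)) hxy) i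
    simp only at h1
    have h2 := mul_left_cancel₀ hs.ne' h1
    exact_mod_cast h2
  refine ⟨(Fintype.piFinset (fun _ : Fin n => range (L + 1))).image f, ?_, ?_, ?_⟩
  · intro r hr
    obtain ⟨d, hd, rfl⟩ := mem_image.1 hr
    rw [Fintype.mem_piFinset] at hd
    intro i
    have h1 : d i ≤ L := Nat.lt_succ_iff.1 (mem_range.1 (hd i))
    have h2 : (d i : ℝ) ≤ 1 / s := by
      refine le_trans (by exact_mod_cast h1) (hL ▸ Nat.floor_le (by positivity))
    rw [le_div_iff₀ hs] at h2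
    rw [hf]
    constructor
    · simp only; positivity
    · simp only; linarith
  · intro x hx y hy hxy
    rw [mem_coe] at hx hy
    obtain ⟨d, -, rfl⟩ := mem_image.1 hx
    obtain ⟨e, -, rfl⟩ := mem_image.1 hy
    have hde : d ≠ e := fun h => hxy (by rw [h])
    obtain ⟨i, hi⟩ := Function.ne_iff.1 hde
    have h1 := PiLp.norm_apply_le (f d - f e) i
    rw [dist_eq_norm]
    refine le_trans ?_ h1
    rw [hf]
    simp only [PiLp.sub_apply, Real.norm_eq_abs]
    have h2 : (1 : ℝ) ≤ |(d i : ℝ) - e i| := by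
      have h3 : (1 : ℤ) ≤ |(d i : ℤ) - e i| := by
        rw [← Int.zero_add 1, Int.add_one_le_iff, abs_pos]
        intro h
        apply hi
        omega
      exact_mod_cast h3
    rw [← mul_sub, abs_mul, abs_of_pos hs]
    nlinarith
  · rw [card_image_of_injective _ hfi, Fintype.card_piFinset]
    simp only [card_range, prod_const, card_univ, Fintype.card_fin]
    push_cast
    refine pow_le_pow_left₀ (by positivity) ?_ n
    rw [hL]
    exact (Nat.lt_floor_add_one _).le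

theorem many {k : ℕ} {c : ℝ} (hc1 : 1 < c) (hc2 : c ≤ 2) (hSD : SD k c) {n : ℕ} {B : Set (Sp n)}
    {δ : ℝ} (hδ : 0 < δ) {P : Finset (Sp n)} (hP : Covers P δ B) {m : ℕ}
    (hm : ∀ r ∈ cube n, ∀ Q : Finset (Sp n), Covers Q ((n + 1) * δ) (firsts k B r) → m ≤ Q.card) :
    (m : ℝ) ^ (c - 1) ≤ ((n + 1) * δ) ^ n * (((k + 2) ^ n * P.card : ℕ) : ℝ) ^ c := by
  classical
  have hs : 0 < ((n : ℝ) + 1) * δ := by positivity
  rcases Nat.eq_zero_or_pos m with h0 | h0
  · rw [h0, Nat.cast_zero, Real.zero_rpow (by linarith)]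
    positivity
  obtain ⟨R, hR1, hR2, hR3⟩ := exists_grid n hs
  have hF : ∀ r : Sp n, ∃ S : Finset (Sp n), r ∈ cube n → (∀ x ∈ S, x ∈ firsts k B r) ∧
      Separated ((n + 1) * δ) (↑S : Set (Sp n)) ∧ m ≤ S.card := by
    intro r
    by_cases hr : r ∈ cube n
    · obtain ⟨S, hS⟩ := exists_sep hs (firsts k B r) m (hm r hr)
      exact ⟨S, fun _ => hS⟩
    · exact ⟨∅, fun h => absurd h hr⟩
  choose F hF using hF
  have h1 := Pool.Agent.X163.Ak.MultN.mult_scale hc1.le hc2 hSD B hδ P hP R hR2 F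
    (fun r hr => ⟨(hF r (hR1 r hr)).2.1, fun a ha => (hF r (hR1 r hr)).1 a ha⟩)
  have h2 : R.filter (fun r => (F r).Nonempty) = R := by
    rw [filter_eq_self]
    intro r hr
    rw [← card_pos]
    exact lt_of_lt_of_le h0 (hF r (hR1 r hr)).2.2
  rw [h2] at h1
  have h3 : (R.card : ℝ) * (m : ℝ) ^ (c - 1) ≤ ∑ r ∈ R, ((F r).card : ℝ) ^ (c - 1) := by
    rw [← nsmul_eq_mul]
    refine card_nsmul_le_sum _ _ _ fun r hr => ?_
    exact Real.rpow_le_rpow (Nat.cast_nonneg _) (by exact_mod_cast (hF r (hR1 r hr)).2.2) (by linarith)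
  have h4 : (1 / (((n : ℝ) + 1) * δ)) ^ n * (m : ℝ) ^ (c - 1) ≤ (((k + 2) ^ n * P.card : ℕ) : ℝ) ^ c :=
    (mul_le_mul_of_nonneg_right hR3 (by positivity)).trans (h3.trans h1)
  calc (m : ℝ) ^ (c - 1) = ((n + 1) * δ) ^ n * ((1 / (((n : ℝ) + 1) * δ)) ^ n * (m : ℝ) ^ (c - 1)) := by
        rw [← mul_assoc, ← mul_pow, mul_one_div_cancel hs.ne', one_pow, one_mul]
    _ ≤ _ := mul_le_mul_of_nonneg_left h4 (by positivity)

theorem dim {k : ℕ} {c : ℝ} (hc1 : 1 < c) (hc2 : c ≤ 2) (hSD : SD k c) {n : ℕ} {B : Set (Sp n)}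
    {μ δ₁ : ℝ} (hδ₁ : 0 < δ₁)
    (hm : ∀ δ : ℝ, 0 < δ → δ < δ₁ → ∀ r ∈ cube n, ∀ Q : Finset (Sp n),
      Covers Q δ (firsts k B r) → δ ^ (-μ) ≤ (Q.card : ℝ)) {s : ℝ} (hs : s < (n + (c - 1) * μ) / c) :
    ∃ δ₀ > 0, ∀ δ : ℝ, 0 < δ → δ < δ₀ → ∀ P : Finset (Sp n), Covers P δ B →
      δ ^ (-s) ≤ (P.card : ℝ) := by
  have hc0 : 0 < c := by linarith
  have hn : (0 : ℝ) ≤ n := Nat.cast_nonneg n
  obtain ⟨σ, hσ⟩ : ∃ σ, σ = (n + (c - 1) * μ) / c := ⟨_, rfl⟩
  obtain ⟨K, hK⟩ : ∃ K : ℝ, K = ((k + 2 : ℝ) ^ n)⁻¹ * ((n : ℝ) + 1) ^ (-σ) := ⟨_, rfl⟩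
  have hK0 : 0 < K := by rw [hK]; positivity
  have he : 0 < σ - s := by rw [hσ]; linarith
  refine ⟨min (δ₁ / (n + 1)) (K ^ (1 / (σ - s))), by positivity, fun δ hδ hlt P hP => ?_⟩
  have hlt1 : (n + 1) * δ < δ₁ := by
    have h1 := lt_of_lt_of_le hlt (min_le_left _ _)
    rw [lt_div_iff₀ (by positivity)] at h1
    linarith
  have hlt2 : δ < K ^ (1 / (σ - s)) := lt_of_lt_of_le hlt (min_le_right _ _)
  have hs0 : 0 < ((n : ℝ) + 1) * δ := by positivity
  have h1 := many hc1 hc2 hSD hδ hP (m := ⌈((n + 1) * δ) ^ (-μ)⌉₊) (fun r hr Q hQ =>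
    Nat.ceil_le.2 (hm _ hs0 hlt1 r hr Q hQ))
  have h2 : (((n : ℝ) + 1) * δ) ^ (-μ * (c - 1)) ≤
      ((n + 1) * δ) ^ n * (((k + 2) ^ n * P.card : ℕ) : ℝ) ^ c := by
    refine le_trans ?_ h1
    rw [Real.rpow_mul hs0.le]
    exact Real.rpow_le_rpow (by positivity) (Nat.le_ceil _) (by linarith)
  have h3 : (((n : ℝ) + 1) * δ) ^ (-(σ * c)) ≤ (((k + 2) ^ n * P.card : ℕ) : ℝ) ^ c := by
    have e1 : -(σ * c) = -μ * (c - 1) + -(n : ℝ) := by
      rw [hσ]
      field_simp
      ring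
    rw [e1, Real.rpow_add hs0, Real.rpow_neg hs0.le, Real.rpow_natCast]
    rw [← div_eq_mul_inv, div_le_iff₀ (by positivity)]
    linarith
  have h4 : (((n : ℝ) + 1) * δ) ^ (-σ) ≤ (((k + 2) ^ n * P.card : ℕ) : ℝ) := by
    have h5 := Real.rpow_le_rpow (by positivity) h3 (show 0 ≤ 1 / c by positivity)
    rw [← Real.rpow_mul hs0.le, ← Real.rpow_mul (Nat.cast_nonneg _), mul_one_div_cancel hc0.ne',
      Real.rpow_one] at h5
    have e2 : -(σ * c) * (1 / c) = -σ := by field_simp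
    rwa [e2] at h5
  have h5 : K * δ ^ (-σ) ≤ P.card := by
    rw [hK, mul_assoc, ← Real.mul_rpow (by positivity) hδ.le, inv_mul_le_iff₀ (by positivity)]
    refine h4.trans (le_of_eq ?_)
    push_cast
    ring
  refine le_trans ?_ h5
  have h6 : δ ^ (σ - s) ≤ K := by
    have := Real.rpow_le_rpow hδ.le hlt2.le he.le
    rwa [← Real.rpow_mul hK0.le, one_div_mul_cancel he.ne', Real.rpow_one] at this
  have h7 : δ ^ (-s) = δ ^ (σ - s) * δ ^ (-σ) := by
    rw [← Real.rpow_add hδ]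
    ring_nf
  rw [h7]
  exact mul_le_mul_of_nonneg_right h6 (by positivity)

end Aux

/-- Let `3/2 ≤ c ≤ 2` be above the root `1.66958684…` of `7x⁴ - 6x³ - 21x² + 24x - 8`. There is `k`,
depending on `c` only, such that in all dimensions `n`:

(1) if `B ⊆ ℝ^n` is covered by the balls of radius `δ` about the points of `P`, `R` is a finite
`(n + 1) δ`-separated set of common differences and `F r` is, for `r ∈ R`, a nonempty finite
`(n + 1) δ`-separated set of first terms of `k`-term progressions in `B` with difference `r`, then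
`∑_{r ∈ R} |F r| ^ (c - 1) ≤ ((k + 2) ^ n |P|) ^ c`;

(2) if for all `r ∈ [0,1]^n` the set of the first terms of the `k`-term progressions in `B` with
difference `r` cannot be covered by fewer than `m` balls of radius `(n + 1) δ`, then
`m ^ (c - 1) ≤ ((n + 1) δ) ^ n ((k + 2) ^ n |P|) ^ c` for such a covering `P` of `B`;

(3) if for all small `δ` and all `r ∈ [0,1]^n` that set of first terms cannot be covered by fewer than
`δ ^ (-μ)` balls of radius `δ`, then for all `s < (n + (c - 1) μ) / c` and all small `δ` the set `B` cannot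
be covered by fewer than `δ ^ (-s)` balls of radius `δ`;

(4) if `n ≥ 1`, `κ < ε` and `η > 0`, then for all large `N` and all sets `R` of at least `N ^ (n - κ)`
vectors in `{0, …, N - 1}^n`, the number of the functions `a` from `R` to `{0, …, N - 1}^n` for which the
progressions `a r, a r + r, …, a r + (k - 1) r` (`r ∈ R`) have together fewer than `N ^ (n - ε)` points is
at most `M ^ (1 - (c ε - κ) / ((c - 1) n) + η)`, where `M = (N ^ n) ^ |R|` is the number of all `a`. -/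
theorem result (c : ℝ) (hc : 3 / 2 ≤ c) (hc2 : c ≤ 2)
    (hq : 0 < 7 * c ^ 4 - 6 * c ^ 3 - 21 * c ^ 2 + 24 * c - 8) :
    ∃ k : ℕ, ∀ n : ℕ,
      (∀ (B : Set (Sp n)) (δ : ℝ), 0 < δ → ∀ P : Finset (Sp n), Covers P δ B →
        ∀ (R : Finset (Sp n)) (F : Sp n → Finset (Sp n)), Separated ((n + 1) * δ) (↑R : Set (Sp n)) →
          (∀ r ∈ R, (F r).Nonempty ∧ Separated ((n + 1) * δ) (↑(F r) : Set (Sp n)) ∧
            ∀ a ∈ F r, a ∈ firsts k B r) →
          ∑ r ∈ R, ((F r).card : ℝ) ^ (c - 1) ≤ (((k + 2) ^ n * P.card : ℕ) : ℝ) ^ c) ∧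
      (∀ (B : Set (Sp n)) (δ : ℝ), 0 < δ → ∀ P : Finset (Sp n), Covers P δ B → ∀ m : ℕ,
        (∀ r ∈ cube n, ∀ Q : Finset (Sp n), Covers Q ((n + 1) * δ) (firsts k B r) → m ≤ Q.card) →
        (m : ℝ) ^ (c - 1) ≤ ((n + 1) * δ) ^ n * (((k + 2) ^ n * P.card : ℕ) : ℝ) ^ c) ∧
      (∀ (B : Set (Sp n)) (μ δ₁ : ℝ), 0 < δ₁ →
        (∀ δ : ℝ, 0 < δ → δ < δ₁ → ∀ r ∈ cube n, ∀ Q : Finset (Sp n),
          Covers Q δ (firsts k B r) → δ ^ (-μ) ≤ (Q.card : ℝ)) →
        ∀ s < (n + (c - 1) * μ) / c, ∃ δ₀ > 0, ∀ δ : ℝ, 0 < δ → δ < δ₀ →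
          ∀ P : Finset (Sp n), Covers P δ B → δ ^ (-s) ≤ (P.card : ℝ)) ∧
      (0 < n → ∀ κ ε η : ℝ, κ < ε → 0 < η → ∃ N₀ : ℕ, ∀ N : ℕ, N₀ ≤ N →
        ∀ R : Finset (Fin n → ℕ), R ⊆ grid n N → (N : ℝ) ^ ((n : ℝ) - κ) ≤ (R.card : ℝ) →
          ((Set.ncard {a : ↥R → (Fin n → ℕ) | (∀ r, a r ∈ grid n N) ∧
            ((pts k R a).ncard : ℝ) < (N : ℝ) ^ ((n : ℝ) - ε)} : ℕ) : ℝ) ≤
            (((N : ℝ) ^ n) ^ R.card) ^ (1 - (c * ε - κ) / ((c - 1) * n) + η)) := by
  classical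
  obtain ⟨k, hSD⟩ := Pool.Agent.X163.Ak.MultN.exists_SD hc hq
  have hc1 : 1 < c := by linarith
  refine ⟨k, fun n => ⟨fun B δ hδ P hP R F hR hF => ?_, fun B δ hδ P hP m hm =>
    Aux.many hc1 hc2 hSD hδ hP hm, fun B μ δ₁ hδ₁ hm s hs => Aux.dim hc1 hc2 hSD hδ₁ hm hs,
    fun hn κ ε η hκ hη => eventually_atTop.1
      (Pool.Agent.X163.Ak.RareSel.rare hc1 hc2 hSD hn hκ hη)⟩⟩
  have h1 := Pool.Agent.X163.Ak.MultN.mult_scale hc1.le hc2 hSD B hδ P hP R hR F
    (fun r hr => ⟨(hF r hr).2.1, fun a ha => (hF r hr).2.2 a ha⟩)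
  have h2 : R.filter (fun r => (F r).Nonempty) = R := by
    rw [filter_eq_self]
    exact fun r hr => (hF r hr).1
  rwa [h2] at h1

end Pool.Agent.Results.MP_4b405e_nt.ManyProgressions
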